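import Pool.Agent.H480.ML.G

/-!
# The local approximation numbers of `M(X x y)` and `L(X x y)` and the real parts of the zeros of `ζ`

Let `S = M` or `S = L`, the summatory functions of the Möbius and the Liouville function, and fix `A, A' > 1`. For a large `X`
we look at the values of `S` near `X` only, in the form of the kernel `S(X x y)` on the rectangle `[1, A] × [1, A']`, and
ask how well it is approximated in the mean by a sum of `r` products `u_i(x) v_i(y)`. The functions `u_i`, `v_i` are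
arbitrary integrable functions, and may depend on `X` in any way. A sum of `r` terms `c x^ρ` is a kernel of rank `r`; so this
asks for the size of `S` near `X` after the removal of the best `r` waves (of any kind) of this scale.

1. For each `r` and each `σ ≥ 1/2`: the distance is `O(X^β)` for every `β > σ` (and all large `X`) if and only if `ζ` has at
   most `r` zeros with real part greater than `σ`, counted with multiplicity.
2. For every `r` and every `β < 1/2` the distance is greater than `X^β` for arbitrarily large `X` (unconditionally).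
3. So for each `r` the exact exponent of the `r`-th approximation number of `S` is the infimum `β_r` of all `σ ≥ 1/2` such
   that `ζ` has at most `r` zeros with real part greater than `σ`: the real parts of the zeros in decreasing order.

For `r = 0` item 1 is the theorem of Littlewood (`L¹` version). For `r ≥ 1` the waves which are removed near `X` and near
`X'` have nothing to do with each other, so that nothing can be said from one scale; the proof shows that the local
recurrences at all the scales come from one and the same recurrence (rigidity, Pool.Agent.H480.K1-K5), which gives a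
continuation of `1/ζ` with at most `r` poles. The converse needs Littlewood's bound for `1/ζ` in a half plane with finitely
many zeros, and the second item needs infinitely many zeros with real part at least `1/2` and multiplicities.

The bound `M(x) = O((x log log x)^(1/2))` of Q1 would give the exponent `1/2` for `r = 0`. The theorem says that then it
is `1/2` for every `r`: the extreme values of `M` of size `x^(1/2)` are not due to any finite number of waves, even if the
waves are chosen anew at each scale.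
-/

set_option autoImplicit false

open Filter MeasureTheory Set Topology

namespace Pool.Agent.Results.MP_7032cb_nt.LocalRank

noncomputable section

/-- `M(x) = ∑_{n ≤ x} μ(n)` -/
def M (x : ℝ) : ℂ := ∑ n ∈ Finset.Icc 1 ⌊x⌋₊, ((ArithmeticFunction.moebius n : ℤ) : ℂ)

/-- `L(x) = ∑_{n ≤ x} λ(n)`, `λ(n) = (-1)^{Ω(n)}` -/
def L (x : ℝ) : ℂ := ∑ n ∈ Finset.Icc 1 ⌊x⌋₊, (-1 : ℂ) ^ ArithmeticFunction.cardFactors n

/-- on the rectangle `[1, A] × [1, A']` the kernel `S(X x y)` is in the mean within `ε` of a sum of `r` products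
`u_i(x) v_i(y)` of integrable functions of one variable -/
def WithinRank (S : ℝ → ℂ) (A A' : ℝ) (r : ℕ) (ε X : ℝ) : Prop :=
  ∃ u v : Fin r → ℝ → ℂ, (∀ i, IntegrableOn (u i) (Icc 1 A)) ∧ (∀ i, IntegrableOn (v i) (Icc 1 A')) ∧
    ∫ z in Icc 1 A ×ˢ Icc 1 A', ‖S (X * z.1 * z.2) - ∑ i, u i z.1 * v i z.2‖ ≤ ε

/-- `ζ` has at most `r` zeros with real part greater than `σ`, counted with multiplicity -/
def AtMost (r : ℕ) (σ : ℝ) : Prop :=
  ∀ T : Finset ℂ, (∀ z ∈ T, riemannZeta z = 0 ∧ σ < z.re) → ∑ z ∈ T, analyticOrderNatAt riemannZeta z ≤ r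

open Pool.Agent.H480.K Pool.Agent.H480.ML in
theorem near_iff {S : ℝ → ℂ} {f : ℕ → ℂ} (hS : ∀ x, S x = H313.GK.SM f x) {A A' : ℝ} {r : ℕ} {β X : ℝ} :
    WithinRank S A A' r (X ^ β) X ↔ Near (H313.GK.SM f) A A' r β X := by
  have h : S = H313.GK.SM f := funext hS
  subst h
  exact Iff.rfl

theorem M_eq (x : ℝ) : M x = H313.GK.SM Pool.Agent.H480.ML.fM x := rfl

theorem L_eq (x : ℝ) : L x = H313.GK.SM Pool.Agent.H480.ML.fL x := by
  unfold L H313.GK.SM Pool.Agent.H480.ML.fL
  refine Finset.sum_congr rfl fun n hn => ?_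
  have hn1 : 1 ≤ n := (Finset.mem_Icc.1 hn).1
  rw [ArithmeticFunction.liouville_apply (by omega)]
  push_cast
  rfl

theorem atMost_one (r : ℕ) : AtMost r 1 := by
  intro T hT
  have h : T = ∅ := by
    refine Finset.eq_empty_of_forall_notMem fun z hz => ?_
    exact riemannZeta_ne_zero_of_one_le_re (hT z hz).2.le (hT z hz).1
  rw [h]
  simp

open Pool.Agent.H480.K Pool.Agent.H480.ML in
theorem main {S : ℝ → ℂ} {f : ℕ → ℂ} (hf : Dat f) (hS : ∀ x, S x = H313.GK.SM f x) {A A' : ℝ} (hA : 1 < A) (hA' : 1 < A')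
    (r : ℕ) :
    (∀ σ : ℝ, 1 / 2 ≤ σ → ((∀ β : ℝ, σ < β → ∀ᶠ X : ℝ in atTop, WithinRank S A A' r (X ^ β) X) ↔ AtMost r σ)) ∧
    (∀ β : ℝ, β < 1 / 2 → ∃ᶠ X : ℝ in atTop, ¬ WithinRank S A A' r (X ^ β) X) ∧
    sInf {β : ℝ | ∀ᶠ X : ℝ in atTop, WithinRank S A A' r (X ^ β) X} = sInf {σ : ℝ | 1 / 2 ≤ σ ∧ AtMost r σ} := by
  have h1 : ∀ σ : ℝ, 1 / 2 ≤ σ → ((∀ β : ℝ, σ < β → ∀ᶠ X : ℝ in atTop, WithinRank S A A' r (X ^ β) X) ↔ AtMost r σ) := by
    intro σ hσ
    simp only [near_iff hS]
    constructor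
    · intro H T hT
      exact down hf hA hA' H T fun z hz => ⟨(hT z hz).1, (hT z hz).2, by have := (hT z hz).2; linarith⟩
    · intro H β hβ
      exact up hf hA hA' hσ H hβ
  have h2 : ∀ β : ℝ, β < 1 / 2 → ¬ ∀ᶠ X : ℝ in atTop, WithinRank S A A' r (X ^ β) X := by
    intro β hβ
    simp only [near_iff hS]
    exact never hf hA hA' r hβ
  have hmono : ∀ β β' : ℝ, β ≤ β' → (∀ᶠ X : ℝ in atTop, WithinRank S A A' r (X ^ β) X) →
      ∀ᶠ X : ℝ in atTop, WithinRank S A A' r (X ^ β') X := by
    intro β β' hβ H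
    filter_upwards [H, eventually_ge_atTop 1] with X hX hX1
    obtain ⟨u, v, hu, hv, hle⟩ := hX
    exact ⟨u, v, hu, hv, hle.trans (Real.rpow_le_rpow_of_exponent_le hX1 hβ)⟩
  refine ⟨h1, fun β hβ => by rw [Filter.not_eventually.symm]; exact h2 β hβ, ?_⟩
  set B : Set ℝ := {β : ℝ | ∀ᶠ X : ℝ in atTop, WithinRank S A A' r (X ^ β) X} with hB
  set Z : Set ℝ := {σ : ℝ | 1 / 2 ≤ σ ∧ AtMost r σ} with hZ
  have hZne : (1:ℝ) ∈ Z := ⟨by norm_num, atMost_one r⟩
  have hZB : ∀ σ ∈ Z, ∀ β : ℝ, σ < β → β ∈ B := fun σ hσ β hβ => (h1 σ hσ.1).2 hσ.2 β hβ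
  have hBZ : B ⊆ Z := by
    intro β hβ
    have h3 : 1 / 2 ≤ β := by
      by_contra h
      exact h2 β (not_le.1 h) hβ
    exact ⟨h3, (h1 β h3).1 fun β' hβ' => hmono β β' hβ'.le hβ⟩
  have hZb : BddBelow Z := ⟨1 / 2, fun σ hσ => hσ.1⟩
  have hBb : BddBelow B := hZb.mono hBZ
  have hBne : B.Nonempty := ⟨2, hZB 1 hZne 2 (by norm_num)⟩
  refine le_antisymm ?_ (csInf_le_csInf hZb hBne hBZ)
  refine le_csInf ⟨1, hZne⟩ fun σ hσ => ?_
  refine le_of_forall_pos_le_add fun ε hε => ?_
  exact csInf_le hBb (hZB σ hσ (σ + ε) (by linarith))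

open Pool.Agent.H480.K Pool.Agent.H480.ML in
theorem result (S : ℝ → ℂ) (hS : S = M ∨ S = L) (A A' : ℝ) (hA : 1 < A) (hA' : 1 < A') (r : ℕ) :
    -- 1. the exponent and the zeros to the right of the critical line
    (∀ σ : ℝ, 1 / 2 ≤ σ → ((∀ β : ℝ, σ < β → ∀ᶠ X : ℝ in atTop, WithinRank S A A' r (X ^ β) X) ↔ AtMost r σ)) ∧
    -- 2. no finite rank below the exponent one half
    (∀ β : ℝ, β < 1 / 2 → ∃ᶠ X : ℝ in atTop, ¬ WithinRank S A A' r (X ^ β) X) ∧
    -- 3. the exact exponent
    sInf {β : ℝ | ∀ᶠ X : ℝ in atTop, WithinRank S A A' r (X ^ β) X} = sInf {σ : ℝ | 1 / 2 ≤ σ ∧ AtMost r σ} := by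
  rcases hS with rfl | rfl
  · exact main datM M_eq hA hA' r
  · exact main datL L_eq hA hA' r

end

end Pool.Agent.Results.MP_7032cb_nt.LocalRank
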